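import Mathlib
import Pool.Agent.H59.CR.Fin
import Pool.Agent.H42.EZ.Qnt

/-!
MP_12179d_an.AboveC2 : the conjecture of Ghys-Sullivan and Hector for all groups of circle diffeomorphisms of class
`C^{2+α}` (any `α > 0`), and for all `C²` generators whose second derivatives satisfy an `L¹` Dini condition.

Modules: Pool/Agent/H59/CR (defect of the cross ratio, disjoint rectangles along shortest words, chains of gaps, porosity),
over Pool/Agent/H42/EM (systems, gaps, paths); the second half of the conclusion uses Pool/Agent/H42/EZ.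
-/

set_option autoImplicit false

open MeasureTheory Set Pool.Agent.H42.EM

namespace Pool.Agent.Results.MP_12179d_an.AboveC2

/-- Let `G` be generated by finitely many `C²` orientation-preserving circle diffeomorphisms `f i` (lifts to `ℝ`)
and the translation by `1`, and suppose that for every `i` the second derivative of `f i` is Hölder continuous with
some exponent `α > 0`, or, more generally, that `(x, y) ↦ (f i''(x) - f i''(y)) / (x - y)` is locally integrable on the
plane.  Then every exceptional minimal set of `G` has Lebesgue measure zero, and its gaps form finitely many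
`G`-orbits. -/
theorem result (n : ℕ) (f : Fin n → Equiv.Perm ℝ)
    (hf : ∀ i, ContDiff ℝ 2 (⇑(f i)) ∧ (∀ x, 0 < deriv (⇑(f i)) x) ∧
      ∀ x, f i (x + 1) = f i x + 1)
    (hreg : ∀ i, (∃ C α : ℝ, 0 < α ∧
        ∀ x y, |deriv (deriv (⇑(f i))) x - deriv (deriv (⇑(f i))) y| ≤ C * |x - y| ^ α) ∨
      LocallyIntegrable (fun p : ℝ × ℝ =>
        (deriv (deriv (⇑(f i))) p.1 - deriv (deriv (⇑(f i))) p.2) / (p.1 - p.2)) volume)
    (Λ : Set ℝ) (hclosed : IsClosed Λ) (hne : Λ.Nonempty)
    (hinv : ∀ g ∈ Subgroup.closure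
      (insert (Equiv.addRight (1 : ℝ) : Equiv.Perm ℝ) (Set.range f)), ⇑g '' Λ ⊆ Λ)
    (hmin : ∀ K : Set ℝ, K ⊆ Λ → IsClosed K → K.Nonempty →
      (∀ g ∈ Subgroup.closure
        (insert (Equiv.addRight (1 : ℝ) : Equiv.Perm ℝ) (Set.range f)), ⇑g '' K ⊆ K) → K = Λ)
    (huniv : Λ ≠ Set.univ) (hinf : (Λ ∩ Set.Ico (0 : ℝ) 1).Infinite) :
    volume Λ = 0 ∧
      ∃ S : Finset ℝ, (∀ s ∈ S, s ∉ Λ) ∧
        ∀ x : ℝ, x ∉ Λ → ∃ s ∈ S, ∃ g ∈ Subgroup.closure
          (insert (Equiv.addRight (1 : ℝ) : Equiv.Perm ℝ) (Set.range f)),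
          x ∈ connectedComponentIn Λᶜ (g s) := by
  have h0 : volume Λ = 0 := Pool.Agent.H59.CR.main_cr
    ⟨n, f, hf, Λ, hclosed, hne, hinv, hmin, huniv, hinf⟩ hreg
  exact ⟨h0, main_zero ⟨n, f, hf, Λ, hclosed, hne, hinv, hmin, huniv, hinf⟩ h0⟩

end Pool.Agent.Results.MP_12179d_an.AboveC2
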