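import Mathlib
import Pool.Agent.H42.EZ.Qnt

/-!
MP_12179d_an.MeasureZero : exceptional minimal sets of measure zero have finitely many orbits of gaps.

Modules: Pool/Agent/H42/EM (systems, gaps, distortion, crossing lemma), Pool/Agent/H42/EZ (costs, free loops,
shadows, clusters, windows, chains).
-/

set_option autoImplicit false

open MeasureTheory Set Pool.Agent.H42.EM

namespace Pool.Agent.Results.MP_12179d_an.MeasureZero

/-- Let `G` be generated by finitely many `C²` orientation-preserving circle diffeomorphisms `f i` (lifts to `ℝ`)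
and the translation by `1`, and let `Λ` be an exceptional minimal set.  If `Λ` has Lebesgue measure zero, or if
its measure on the circle is at most `1 / (10^16 M exp M)`, where `M ≥ 1` is a Lipschitz constant of the logarithms
of the derivatives of the `f i` and of their inverses, then the gaps of `Λ` form finitely many `G`-orbits. -/
theorem result (n : ℕ) (f : Fin n → Equiv.Perm ℝ)
    (hf : ∀ i, ContDiff ℝ 2 (⇑(f i)) ∧ (∀ x, 0 < deriv (⇑(f i)) x) ∧
      ∀ x, f i (x + 1) = f i x + 1)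
    (Λ : Set ℝ) (hclosed : IsClosed Λ) (hne : Λ.Nonempty)
    (hinv : ∀ g ∈ Subgroup.closure
      (insert (Equiv.addRight (1 : ℝ) : Equiv.Perm ℝ) (Set.range f)), ⇑g '' Λ ⊆ Λ)
    (hmin : ∀ K : Set ℝ, K ⊆ Λ → IsClosed K → K.Nonempty →
      (∀ g ∈ Subgroup.closure
        (insert (Equiv.addRight (1 : ℝ) : Equiv.Perm ℝ) (Set.range f)), ⇑g '' K ⊆ K) → K = Λ)
    (huniv : Λ ≠ Set.univ) (hinf : (Λ ∩ Set.Ico (0 : ℝ) 1).Infinite)
    (hsmall : volume Λ = 0 ∨ ∃ M : ℝ, 1 ≤ M ∧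
      (∀ i, ∀ x y : ℝ,
        |Real.log (deriv (⇑(f i)) x) - Real.log (deriv (⇑(f i)) y)| ≤ M * |x - y| ∧
        |Real.log (deriv (⇑(f i)⁻¹) x) - Real.log (deriv (⇑(f i)⁻¹) y)| ≤ M * |x - y|) ∧
      volume (Λ ∩ Set.Ico (0 : ℝ) 1) ≤ ENNReal.ofReal (1 / (10 ^ 16 * M * Real.exp M))) :
    ∃ S : Finset ℝ, (∀ s ∈ S, s ∉ Λ) ∧
      ∀ x : ℝ, x ∉ Λ → ∃ s ∈ S, ∃ g ∈ Subgroup.closure
        (insert (Equiv.addRight (1 : ℝ) : Equiv.Perm ℝ) (Set.range f)),
        x ∈ connectedComponentIn Λᶜ (g s) := by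
  rcases hsmall with h0 | ⟨M, hM1, hM, h0⟩
  · exact main_zero ⟨n, f, hf, Λ, hclosed, hne, hinv, hmin, huniv, hinf⟩ h0
  · refine main_small ⟨n, f, hf, Λ, hclosed, hne, hinv, hmin, huniv, hinf⟩ (M := M)
      ⟨by linarith, ?_⟩ hM1 h0
    rintro s ⟨i, rfl | rfl⟩ u v
    · exact (hM i u v).1
    · exact (hM i u v).2

end Pool.Agent.Results.MP_12179d_an.MeasureZero
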