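import Pool.Agent.H42.EM.Fin

/-!
# MP_12179d_an: exceptional minimal sets of `C²` group actions on the circle; the conclusion of Q1 when every
non-expandable point of the minimal set is a gap endpoint, or has a convergent Poincaré series, or is a
point of bilateral porosity of the minimal set
-/

set_option autoImplicit false

open MeasureTheory Set Pool.Agent.H42.EM

namespace Pool.Agent.Results.MP_12179d_an.NonExpandablePoints

/-- Let `G` be generated by finitely many `C²` orientation-preserving circle diffeomorphisms (lifts to `ℝ`)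
and the translation by `1`, and let `Λ` be an exceptional minimal set.  If every point `x` of `Λ` with
`g'(x) ≤ 1` for all `g ∈ G` is an endpoint of a gap of `Λ`, or the sums of `g'(x)` over finite families of
elements `g` of `G` with values `g(x)` pairwise different on the circle are bounded, or `Λ` is bilaterally
porous at `x`, then `Λ` has measure zero and its gaps form finitely many `G`-orbits. -/
theorem result (n : ℕ) (f : Fin n → Equiv.Perm ℝ)
    (hf : ∀ i, ContDiff ℝ 2 (⇑(f i)) ∧ (∀ x, 0 < deriv (⇑(f i)) x) ∧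
      ∀ x, f i (x + 1) = f i x + 1)
    (Λ : Set ℝ) (hclosed : IsClosed Λ) (hne : Λ.Nonempty)
    (hinv : ∀ g ∈ Subgroup.closure
      (insert (Equiv.addRight (1 : ℝ) : Equiv.Perm ℝ) (Set.range f)), ⇑g '' Λ ⊆ Λ)
    (hmin : ∀ K : Set ℝ, K ⊆ Λ → IsClosed K → K.Nonempty →
      (∀ g ∈ Subgroup.closure
        (insert (Equiv.addRight (1 : ℝ) : Equiv.Perm ℝ) (Set.range f)), ⇑g '' K ⊆ K) → K = Λ)
    (huniv : Λ ≠ Set.univ) (hinf : (Λ ∩ Set.Ico (0 : ℝ) 1).Infinite)
    (hNE : ∀ x ∈ Λ,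
      (∀ g ∈ Subgroup.closure
        (insert (Equiv.addRight (1 : ℝ) : Equiv.Perm ℝ) (Set.range f)), deriv (⇑g) x ≤ 1) →
      OneSided Λ x ∨
      (∃ W : ℝ, ∀ s : Finset (Equiv.Perm ℝ),
        (∀ g ∈ s, g ∈ Subgroup.closure
          (insert (Equiv.addRight (1 : ℝ) : Equiv.Perm ℝ) (Set.range f))) →
        (∀ g ∈ s, ∀ h ∈ s, g ≠ h → ∀ k : ℤ, g x ≠ h x + k) → ∑ g ∈ s, deriv (⇑g) x ≤ W) ∨
      Bip Λ x) :
    volume Λ = 0 ∧
      ∃ S : Finset ℝ, (∀ s ∈ S, s ∉ Λ) ∧
        ∀ x : ℝ, x ∉ Λ → ∃ s ∈ S, ∃ g ∈ Subgroup.closure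
          (insert (Equiv.addRight (1 : ℝ) : Equiv.Perm ℝ) (Set.range f)),
          x ∈ connectedComponentIn Λᶜ (g s) :=
  main_sys ⟨n, f, hf, Λ, hclosed, hne, hinv, hmin, huniv, hinf⟩ hNE

end Pool.Agent.Results.MP_12179d_an.NonExpandablePoints
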