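import Mathlib
import Pool.Agent.H46.TT.R2
import Pool.Agent.H46.TT.R3

/-!
MP_12179d_an.TypeThree : on an exceptional minimal set the derivatives of the group are unbounded almost everywhere, and
almost every point of every measurable part returns with arbitrarily large derivative; no absolutely continuous
invariant measure charges the minimal set.

Modules: Pool/Agent/H46/TT (cohomological equation, density points, shortest words, scales), over
Pool/Agent/H42/EM (systems, gaps, distortion).
-/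

set_option autoImplicit false

open MeasureTheory Set Pool.Agent.H42.EM

namespace Pool.Agent.Results.MP_12179d_an.TypeThree

/-- Let `G` be generated by finitely many `C²` orientation-preserving circle diffeomorphisms `f i` (lifts to `ℝ`)
and the translation by `1`, and let `Λ` be an exceptional minimal set.
(1) For every measurable `B ⊆ Λ`, almost every `x ∈ B` has, for every `C`, an element `g ∈ G` with `g x ∈ B` and
`g' x > C`.
(2) Every `σ`-finite `G`-invariant measure that is absolutely continuous with respect to Lebesgue measure gives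
`Λ` the measure zero. -/
theorem result (n : ℕ) (f : Fin n → Equiv.Perm ℝ)
    (hf : ∀ i, ContDiff ℝ 2 (⇑(f i)) ∧ (∀ x, 0 < deriv (⇑(f i)) x) ∧
      ∀ x, f i (x + 1) = f i x + 1)
    (Λ : Set ℝ) (hclosed : IsClosed Λ) (hne : Λ.Nonempty)
    (hinv : ∀ g ∈ Subgroup.closure
      (insert (Equiv.addRight (1 : ℝ) : Equiv.Perm ℝ) (Set.range f)), ⇑g '' Λ ⊆ Λ)
    (hmin : ∀ K : Set ℝ, K ⊆ Λ → IsClosed K → K.Nonempty →
      (∀ g ∈ Subgroup.closure
        (insert (Equiv.addRight (1 : ℝ) : Equiv.Perm ℝ) (Set.range f)), ⇑g '' K ⊆ K) → K = Λ)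
    (huniv : Λ ≠ Set.univ) (hinf : (Λ ∩ Set.Ico (0 : ℝ) 1).Infinite) :
    (∀ B : Set ℝ, MeasurableSet B → B ⊆ Λ → ∀ᵐ x ∂(volume.restrict B), ∀ C : ℝ,
      ∃ g ∈ Subgroup.closure
        (insert (Equiv.addRight (1 : ℝ) : Equiv.Perm ℝ) (Set.range f)),
        g x ∈ B ∧ C < deriv (⇑g) x) ∧
    ∀ ν : Measure ℝ, SigmaFinite ν → ν ≪ volume →
      (∀ g ∈ Subgroup.closure
        (insert (Equiv.addRight (1 : ℝ) : Equiv.Perm ℝ) (Set.range f)), ν.map (⇑g) = ν) →
      ν Λ = 0 := by
  refine ⟨fun B hB hBΛ => ?_, fun ν hν hac hinv' => ?_⟩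
  · exact Pool.Agent.H46.TT.unbdd ⟨n, f, hf, Λ, hclosed, hne, hinv, hmin, huniv, hinf⟩ hB hBΛ
  · exact Pool.Agent.H46.TT.no_inv ⟨n, f, hf, Λ, hclosed, hne, hinv, hmin, huniv, hinf⟩ ν hac hinv'

end Pool.Agent.Results.MP_12179d_an.TypeThree
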